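import Pool.Agent.KS6_51.INVC.Fam
import Pool.Graph.R_pool_sql_team_seeded_63374d34.N725.SQ.Main

set_option autoImplicit false

/-! # The squares of the coordinates, far from all primes: the criterion -/

namespace Pool.Agent.KS6_51.INVS

open Finset Filter
open Pool.Agent.H469R2.NK (e norm_e e_add)
open Pool.Agent.W147.PS (ff ff_compare ev_pow)
open Pool.Agent.N542.PU (WellDist)
open Pool.Agent.N542.PV (AdmSq GoodSq rect_vec)
open Pool.Agent.Q46.SL (CS)
open Pool.Agent.Q46.MH (classJ_le)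

/-- all `(x + k)² + a`, `k ∈ K`, `|a| ≤ A`, `-a` not a square, have a small prime factor, if `(A, K)` is admissible -/
def Qsq (b : ℕ) (δ : ℝ) (θ : ℕ × Finset ℤ) (κ M : ℝ) (x : ℤ) : Prop :=
  AdmSq κ b (Real.log M) (Real.log (Real.log M)) (ff M) θ.1 θ.2 →
    ∀ k ∈ θ.2, ∀ a : ℤ, |a| ≤ θ.1 → ¬ IsSquare (-a) →
      ∃ q : ℕ, q.Prime ∧ (q : ℝ) ≤ M ^ δ ∧ (q : ℤ) ∣ (x + k) ^ 2 + a

open Classical in
/-- **the criterion for the squares** -/
theorem csSq (b : ℕ) (δ : ℝ) (hδ : 0 < δ) (r : ℕ) : CS (Qsq b δ) (fun M => M ^ (-δ)) r := by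
  intro η h0 h1
  rcases Nat.eq_zero_or_pos r with hr | hr
  · subst hr
    refine ⟨1, one_pos, 1, one_pos, ?_⟩
    filter_upwards [eventually_ge_atTop (1 : ℝ)] with M hM1
    refine ⟨by positivity, ?_⟩
    intro θ ι s v _ _
    have h2 : M ^ (-δ) ≤ 1 := Real.rpow_le_one_of_one_le_of_nonpos hM1 (by linarith)
    have h3 : s.filter (fun i => ∀ j : Fin 0, Qsq b δ θ 1 M (v i j)) = s := by
      apply filter_true_of_mem
      intro i _ j
      exact j.elim0
    rw [h3]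
    have : (0 : ℝ) ≤ s.card := Nat.cast_nonneg _
    nlinarith
  obtain ⟨c, hc, Y₀, hrect⟩ := rect_vec r hr (b + 1)
  set η₁ : ℝ := min η δ with hη₁
  have hη₁0 : 0 < η₁ := lt_min h0 hδ
  have hη₁η : η₁ ≤ η := min_le_left _ _
  have hη₁δ : η₁ ≤ δ := min_le_right _ _
  have hrr : (0 : ℝ) < 2 * ((r : ℝ) + 2) := by positivity
  set θ' : ℝ := η₁ / (2 * ((r : ℝ) + 2)) with hθ'
  have hθ'0 : 0 < θ' := by positivity
  have hθr : θ' * ((r : ℝ) + 1) ≤ η₁ / 2 := by
    have e1 : θ' * (2 * ((r : ℝ) + 2)) = η₁ := by rw [hθ']; field_simp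
    nlinarith
  have hθη : θ' ≤ η₁ := by
    have e1 : θ' * (2 * ((r : ℝ) + 2)) = η₁ := by rw [hθ']; field_simp
    have : (0 : ℝ) ≤ r := Nat.cast_nonneg r
    nlinarith
  have hθ'1 : θ' ≤ 1 := by linarith
  refine ⟨c * (θ' / 32), by positivity, 1, one_pos, ?_⟩
  filter_upwards [Pool.Agent.N725.SQ.adm_pow c hc b θ' hθ'0 hθ'1,
    (tendsto_rpow_atTop hθ'0).eventually_ge_atTop Y₀, eventually_gt_atTop (1 : ℝ),
    (tendsto_rpow_atTop (show (0 : ℝ) < η₁ / 2 by positivity)).eventually_ge_atTop 4] with M hadm hMY hM1' h4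
  have hM1 : 1 ≤ M := hM1'.le
  have hM0 : 0 < M := by linarith
  refine ⟨by positivity, ?_⟩
  intro θ ι s v hv hE
  have hmono : ∀ x y : ℝ, x ≤ y → M ^ x ≤ M ^ y := fun x y h => Real.rpow_le_rpow_of_exponent_le hM1 h
  have hle1 : M ^ (-δ) ≤ 1 := Real.rpow_le_one_of_one_le_of_nonpos hM1 (by linarith)
  set G : Finset ι := s.filter (fun i => ∀ j, Qsq b δ θ (c * (θ' / 32)) M (v i j)) with hG
  by_contra hcon
  push Not at hcon
  rw [one_mul] at hcon
  have hGs : G ⊆ s := filter_subset _ _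
  have hG0 : (0 : ℝ) ≤ G.card := Nat.cast_nonneg _
  have hs0 : (0 : ℝ) < s.card := by
    by_contra h3
    push Not at h3
    have h4 : (s.card : ℝ) = 0 := le_antisymm h3 (Nat.cast_nonneg _)
    rw [h4, zero_mul] at hcon
    linarith
  by_cases hA : AdmSq (c * (θ' / 32)) b (Real.log M) (Real.log (Real.log M)) (ff M) θ.1 θ.2
  swap
  · have h5 : G = s := by
      rw [hG]
      apply filter_true_of_mem
      intro i _ j h6
      exact absurd h6 hA
    rw [h5] at hcon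
    nlinarith
  have hA' := hadm θ.1 θ.2 hA
  set t : Finset ι := s \ G with ht
  have htc : (t.card : ℝ) = s.card - G.card := by
    have h2 := card_sdiff_add_card_eq_card hGs
    have h3 : (((s \ G).card + G.card : ℕ) : ℝ) = s.card := by exact_mod_cast h2
    push_cast at h3
    rw [ht]
    linarith
  have hηp : (0 : ℝ) < M ^ (-η₁) := by positivity
  have hη4 : M ^ (-η₁) * 4 ≤ M ^ (-(η₁ / 2)) := by
    have e1 : M ^ (-(η₁ / 2)) = M ^ (-η₁) * M ^ (η₁ / 2) := by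
      rw [← Real.rpow_add hM0]
      congr 1
      ring
    rw [e1]
    exact mul_le_mul_of_nonneg_left h4 hηp.le
  have hη1 : M ^ (-(η₁ / 2)) ≤ 1 := Real.rpow_le_one_of_one_le_of_nonpos hM1 (by linarith)
  have hcon' : (G.card : ℝ) ≤ s.card * M ^ (-η₁) :=
    hcon.le.trans (mul_le_mul_of_nonneg_left (hmono _ _ (by linarith)) hs0.le)
  have hthalf : (s.card : ℝ) / 2 ≤ t.card := by
    rw [htc]
    nlinarith
  have htne : t.Nonempty := by
    rw [← card_pos]
    have : (0 : ℝ) < t.card := by linarith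
    exact_mod_cast this
  obtain ⟨i, hi, hi2⟩ := hrect (M ^ θ') hMY θ.1 θ.2 hA' ι t v htne (by
    intro q hq hqX ρ
    have hqη : (q : ℝ) ≤ M ^ η := hqX.trans (hmono _ _ (by linarith))
    have h2 := classJ_le t v q hq (4 * (t.card * M ^ (-η₁))) (by positivity) (by
      intro h hh hh0
      have e1 := hE q hq hqη h hh hh0
      have e2 : ∑ i ∈ t, e (∑ j, (h j : ℝ) * (v i j / q)) =
          ∑ i ∈ s, e (∑ j, (h j : ℝ) * (v i j / q)) - ∑ i ∈ G, e (∑ j, (h j : ℝ) * (v i j / q)) := by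
        rw [ht, ← sum_sdiff hGs]
        ring
      have e3 : ‖∑ i ∈ G, e (∑ j, (h j : ℝ) * (v i j / q))‖ ≤ G.card := by
        refine (norm_sum_le _ _).trans ?_
        simp [norm_e]
      rw [e2]
      refine (norm_sub_le _ _).trans ?_
      have e4 : (s.card : ℝ) * M ^ (-η) ≤ s.card * M ^ (-η₁) :=
        mul_le_mul_of_nonneg_left (hmono _ _ (by linarith)) hs0.le
      nlinarith) ρ
    refine h2.trans ?_
    have e5 : (M ^ θ') ^ (-((r : ℝ) + 1)) = M ^ (-(θ' * ((r : ℝ) + 1))) := by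
      rw [← Real.rpow_mul hM0.le]
      congr 1
      ring
    rw [e5]
    have e6 : M ^ (-(η₁ / 2)) ≤ M ^ (-(θ' * ((r : ℝ) + 1))) := hmono _ _ (by linarith)
    have e7 : (0 : ℝ) ≤ t.card := Nat.cast_nonneg _
    nlinarith)
  rw [ht, Finset.mem_sdiff] at hi
  apply hi.2
  rw [hG, mem_filter]
  refine ⟨hi.1, fun j _ k hk a ha hsq => ?_⟩
  obtain ⟨q, hq, hq1, hq2⟩ := hi2 j k hk a ha hsq
  refine ⟨q, hq, hq1.trans ?_, hq2⟩
  rw [← Real.rpow_mul hM0.le]
  exact hmono _ _ (by nlinarith)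

end Pool.Agent.KS6_51.INVS
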